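import Pool.Agent.helper88.PF.Spec

/-!
# Row pf:ATH (MP_0b485e_lc): thin sets
-/

set_option autoImplicit false

namespace PF

theorem ATH_fin (B : Finset ℕ) : ComputablePred (fun k : ℕ => k ∈ B) := by
  classical
  induction B using Finset.induction_on with
  | empty =>
    exact (cp_const False).of_eq fun k => by simp
  | insert a B ha ih =>
    have h1 : ComputablePred (fun k : ℕ => k = a) := cp_eq Computable.id (Computable.const a)
    exact (cp_or h1 ih).of_eq fun k => by rw [Finset.mem_insert]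

theorem ATH (_hACP : ACP_stmt) (hAIC : AIC_stmt) : ATH_stmt := by
  classical
  intro σ _ _ S hS hmono
  have hm : ∀ k s t, s ≤ t → S (k, s) ≤ S (k, t) := by
    intro k s t hst
    induction hst with
    | refl => exact le_refl _
    | step _ ih => exact le_trans ih (hmono k _)
  set W : σ → Set ℕ := fun v => {k | ∃ s, S (k, s) = v} with hW
  have hne : {v : σ | (W v).Infinite}.Nonempty := by
    by_contra h
    have h1 : ∀ v, (W v).Finite := by
      intro v
      by_contra hv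
      exact h ⟨v, hv⟩
    have h2 : (Set.univ : Set ℕ) ⊆ ⋃ v, W v := by
      intro k _
      exact Set.mem_iUnion.2 ⟨S (k, 0), 0, rfl⟩
    exact Set.infinite_univ ((Set.finite_iUnion h1).subset h2)
  obtain ⟨σ₀, hσ₀⟩ := (Set.toFinite {v : σ | (W v).Infinite}).exists_maximal hne
  set B : Set ℕ := ⋃ v : {v : σ // σ₀ < v}, W v.1 with hB
  have hBf : B.Finite := by
    refine Set.finite_iUnion fun v => ?_
    by_contra hv
    exact absurd (hσ₀.2 hv v.2.le) (not_le_of_gt v.2)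
  have hre : REPred (fun k : ℕ => (∃ s, S (k, s) = σ₀) ∧ ¬ k ∈ hBf.toFinset) := by
    refine re_and (re_ex (p := fun k s => S (k, s) = σ₀) ?_) (cp_not (ATH_fin _)).to_re
    exact (hS σ₀).to_re
  have hinf : {k : ℕ | (∃ s, S (k, s) = σ₀) ∧ ¬ k ∈ hBf.toFinset}.Infinite := by
    have h1 : (W σ₀ \ B).Infinite := hσ₀.1.sdiff hBf
    refine h1.mono fun k hk => ⟨hk.1, fun h => hk.2 (hBf.mem_toFinset.1 h)⟩
  obtain ⟨R, hR, hRi, hRP⟩ := hAIC _ hre hinf
  refine ⟨σ₀, R, hR, hRi, fun k hk => ?_⟩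
  obtain ⟨⟨s₀, hs₀⟩, hkB⟩ := hRP k hk
  refine ⟨s₀, fun s hs => ?_⟩
  by_contra hne'
  have h1 : σ₀ < S (k, s) := lt_of_le_of_ne (hs₀ ▸ hm k s₀ s hs) (Ne.symm hne')
  exact hkB (hBf.mem_toFinset.2 (Set.mem_iUnion.2 ⟨⟨S (k, s), h1⟩, s, rfl⟩))

end PF
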