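import Pool.Agent.helper88.PF.Spec

/-!
# Row pf:BST (MP_0b485e_lc): the criterion implies truth
-/

set_option autoImplicit false

namespace PF

theorem BST_ae_and {P Q : ℕ → Prop} (hP : AE P) (hQ : AE Q) : AE (fun p => P p ∧ Q p) := by
  have h1 : {p | ¬ (P p ∧ Q p)} ⊆ {p | ¬ P p} ∪ {p | ¬ Q p} := by
    intro p hp
    by_cases h : P p
    · exact Or.inr fun hq => hp ⟨h, hq⟩
    · exact Or.inl h
  exact (Set.Finite.union hP hQ).subset h1

theorem BST_ae_mono {P Q : ℕ → Prop} (h : ∀ p, P p → Q p) (hP : AE P) : AE Q :=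
  Set.Finite.subset hP fun _ hp hq => hp (h _ hq)

theorem BST_ae_all {P : ℕ → Prop} (h : ∀ p, P p) : AE P := by
  have h1 : {p | ¬ P p} = ∅ := by
    ext p
    constructor
    · intro hp
      exact absurd (h p) hp
    · intro hp
      exact absurd hp (Set.notMem_empty p)
  unfold AE
  rw [h1]
  exact Set.finite_empty

theorem BST (hACL : ACL_stmt) (hBSO : BSO_stmt) (hBTM : BTM_stmt) : BST_stmt := by
  intro Γ π
  obtain ⟨hconst, hmono, -⟩ := hACL
  induction π with
  | one α K =>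
    intro β Θ hV x hx hK
    obtain ⟨D, hD⟩ := hV
    obtain ⟨y, hy, hyp⟩ := hBSO Po.one Po.one α β (fun _ _ u v => K u → Θ u v)
      (fun _ => ()) (fun _ => ()) (fun _ => D) x (hconst Unit ()) (hconst Unit ())
      (hconst (Set (α × β)) D) hx (BST_ae_all fun _ => hD)
    exact ⟨y, hy, BST_ae_mono (fun p hp => hp.2 hp.1) (BST_ae_and hK hyp)⟩
  | @snoc Γ π β₀ α ih =>
    intro β Θ hV
    have h1 := ih (β₀.prod (α.prod β).set) (fun γ t => Cl t.2 (fun u v => Θ (γ, t.1, u) v)) hV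
    refine hBTM Γ π _ _ ?_ h1
    rintro γ hγ ⟨y, hy, hyc⟩
    refine ⟨fun p => (y p).1, hmono _ _ (fun z : β₀ × Set (α × β) => z.1) y
      (fun _ _ h => h.1) hy, fun x hx => ?_⟩
    exact hBSO Γ β₀ α β (fun g t u v => Θ (g, t, u) v) γ (fun p => (y p).1) (fun p => (y p).2) x
      hγ (hmono _ _ (fun z : β₀ × Set (α × β) => z.1) y (fun _ _ h => h.1) hy)
      (hmono _ _ (fun z : β₀ × Set (α × β) => z.2) y (fun _ _ h => h.2) hy) hx hyc

end PF
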